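import Mathlib

set_option autoImplicit false

/-!
# A determinant `-2` among three consecutive rows of Mahler's quadratic Farey list of order `7`

The rows `(7,-6,1)`, `(6,3,-1)`, `(7,7,-2)` (roots `0.2265...`, `0.2287...`, `0.2319...`) are
consecutive in the list of order `7` and their determinant is `-2`.
-/

namespace Pool.Agent.Results.MP_ca606e_nt.DeterminantTwo

/-- An entry of the list: a triple `(a, b, c)`, standing for `a x² + b x + c = 0`, with the root it
carries (`⊤` is `∞`). -/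
abbrev Row := (ℤ × ℤ × ℤ) × EReal

/-- The end points: `(0,1,0)` with root `0` and `(0,0,1)` with root `∞`. -/
def IsEnd (e : Row) : Prop := e = ((0, 1, 0), 0) ∨ e = ((0, 0, 1), ⊤)

/-- The rational entries: `(0, q, -p)` with root `p / q`, for `p / q` in lowest terms,
`1 ≤ p, q ≤ n`. -/
def IsRat (n : ℕ) (e : Row) : Prop :=
  ∃ p q : ℕ, 1 ≤ p ∧ p ≤ n ∧ 1 ≤ q ∧ q ≤ n ∧ Nat.Coprime p q ∧
    e = ((0, (q : ℤ), -(p : ℤ)), (((p : ℝ) / (q : ℝ) : ℝ) : EReal))

/-- The quadratic entries: `(a, b, c)` with root `θ > 0` irrational, `a θ² + b θ + c = 0`, `a ≥ 1`,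
`gcd(a, b, c) = 1` and `max(a, |b|, |c|) ≤ n`. -/
def IsQuad (n : ℕ) (e : Row) : Prop :=
  ∃ (a b c : ℤ) (θ : ℝ), 1 ≤ a ∧ a ≤ n ∧ |b| ≤ n ∧ |c| ≤ n ∧ Int.gcd a (Int.gcd b c) = 1 ∧
    0 < θ ∧ Irrational θ ∧ (a : ℝ) * θ ^ 2 + (b : ℝ) * θ + (c : ℝ) = 0 ∧
    e = ((a, b, c), (θ : EReal))

open Classical in
/-- How often an entry occurs in the list: rational entries twice, the others once. -/
noncomputable def mult (n : ℕ) (e : Row) : ℕ :=
  if IsRat n e then 2 else if IsEnd e ∨ IsQuad n e then 1 else 0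

open Classical in
/-- `L` is the list of order `n`: it is ordered by increasing root, and every entry occurs in it
exactly as often as prescribed. -/
def IsMahlerList (n : ℕ) (L : List Row) : Prop :=
  L.Pairwise (fun e e' => e.2 ≤ e'.2) ∧ ∀ e : Row, L.count e = mult n e

/-- The determinant of three rows. -/
def det3 (r s t : Row) : ℤ :=
  Matrix.det !![r.1.1, r.1.2.1, r.1.2.2; s.1.1, s.1.2.1, s.1.2.2; t.1.1, t.1.2.1, t.1.2.2]

/-! ### The same root means the same entry -/

theorem quad_unique {a b c a' b' c' : ℤ} {θ : ℝ} (ha : 1 ≤ a) (ha' : 1 ≤ a')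
    (hg : Int.gcd a (Int.gcd b c) = 1) (hg' : Int.gcd a' (Int.gcd b' c') = 1)
    (hθ : Irrational θ) (h : (a : ℝ) * θ ^ 2 + (b : ℝ) * θ + (c : ℝ) = 0)
    (h' : (a' : ℝ) * θ ^ 2 + (b' : ℝ) * θ + (c' : ℝ) = 0) : a = a' ∧ b = b' ∧ c = c' := by
  have key : ((a * b' - a' * b : ℤ) : ℝ) * θ + ((a * c' - a' * c : ℤ) : ℝ) = 0 := by
    push_cast
    linear_combination (a : ℝ) * h' - (a' : ℝ) * h
  have h1 : a * b' - a' * b = 0 := by
    by_contra hne
    apply hθ
    refine ⟨-((a * c' - a' * c : ℤ) : ℚ) / ((a * b' - a' * b : ℤ) : ℚ), ?_⟩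
    have hne' : ((a * b' - a' * b : ℤ) : ℝ) ≠ 0 := by exact_mod_cast hne
    have : θ = -((a * c' - a' * c : ℤ) : ℝ) / ((a * b' - a' * b : ℤ) : ℝ) := by
      field_simp
      linarith
    rw [this]
    push_cast
    rfl
  have h2 : a * c' - a' * c = 0 := by
    rw [h1] at key
    have : ((a * c' - a' * c : ℤ) : ℝ) = 0 := by simpa using key
    exact_mod_cast this
  have d1 : a ∣ a' := by
    have e1 : a ∣ a' * b := ⟨b', by linarith⟩
    have e2 : a ∣ a' * c := ⟨c', by linarith⟩
    have e3 : a ∣ a' * (Int.gcd b c : ℤ) := by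
      rw [Int.gcd_eq_gcd_ab b c]
      have : a' * (b * b.gcdA c + c * b.gcdB c) = a' * b * b.gcdA c + a' * c * b.gcdB c := by ring
      rw [this]
      exact dvd_add (Dvd.dvd.mul_right e1 _) (Dvd.dvd.mul_right e2 _)
    have : IsCoprime a (Int.gcd b c : ℤ) := Int.isCoprime_iff_gcd_eq_one.2 hg
    exact this.dvd_of_dvd_mul_right e3
  have d2 : a' ∣ a := by
    have e1 : a' ∣ a * b' := ⟨b, by linarith⟩
    have e2 : a' ∣ a * c' := ⟨c, by linarith⟩
    have e3 : a' ∣ a * (Int.gcd b' c' : ℤ) := by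
      rw [Int.gcd_eq_gcd_ab b' c']
      have : a * (b' * b'.gcdA c' + c' * b'.gcdB c') = a * b' * b'.gcdA c' + a * c' * b'.gcdB c' := by
        ring
      rw [this]
      exact dvd_add (Dvd.dvd.mul_right e1 _) (Dvd.dvd.mul_right e2 _)
    have : IsCoprime a' (Int.gcd b' c' : ℤ) := Int.isCoprime_iff_gcd_eq_one.2 hg'
    exact this.dvd_of_dvd_mul_right e3
  have haa : a = a' := Int.dvd_antisymm (by omega) (by omega) d1 d2
  subst haa
  have ha0 : a ≠ 0 := by omega
  refine ⟨rfl, ?_, ?_⟩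
  · have : a * b' = a * b := by linarith
    exact (mul_left_cancel₀ ha0 this).symm
  · have : a * c' = a * c := by linarith
    exact (mul_left_cancel₀ ha0 this).symm

theorem ne_zero_of_mult {n : ℕ} {e : Row} (h : mult n e ≠ 0) : IsRat n e ∨ IsEnd e ∨ IsQuad n e := by
  unfold mult at h
  by_cases h1 : IsRat n e
  · exact Or.inl h1
  · by_cases h2 : IsEnd e ∨ IsQuad n e
    · exact Or.inr h2
    · simp [h1, h2] at h

theorem entry_unique {n : ℕ} {e e' : Row} (h : IsRat n e ∨ IsEnd e ∨ IsQuad n e)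
    (h' : IsRat n e' ∨ IsEnd e' ∨ IsQuad n e') (hr : e.2 = e'.2) : e = e' := by
  rcases h with ⟨p, q, hp, hpn, hq, hqn, hpq, rfl⟩ | (rfl | rfl) |
    ⟨a, b, c, θ, ha, han, hb, hc, hg, h0, hi, hz, rfl⟩ <;>
  rcases h' with ⟨p', q', hp', hpn', hq', hqn', hpq', rfl⟩ | (rfl | rfl) |
    ⟨a', b', c', θ', ha', han', hb', hc', hg', h0', hi', hz', rfl⟩ <;>
  simp only [] at hr
  · have hr' : (p : ℝ) / q = p' / q' := by exact_mod_cast hr
    have hq0 : (q : ℝ) ≠ 0 := by positivity
    have hq0' : (q' : ℝ) ≠ 0 := by positivity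
    rw [div_eq_div_iff hq0 hq0'] at hr'
    have hn : p * q' = p' * q := by exact_mod_cast hr'
    have e1 : p ∣ p' := hpq.dvd_of_dvd_mul_right ⟨q', hn.symm⟩
    have e2 : p' ∣ p := hpq'.dvd_of_dvd_mul_right ⟨q, hn⟩
    have e3 : p = p' := Nat.dvd_antisymm e1 e2
    subst e3
    have : q' = q := Nat.eq_of_mul_eq_mul_left (by omega) hn
    subst this
    rfl
  · exfalso
    have hr' : (p : ℝ) / q = 0 := by exact_mod_cast hr
    have : (0 : ℝ) < (p : ℝ) / q := by positivity
    linarith
  · exact absurd hr (EReal.coe_ne_top _)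
  · exfalso
    have hr' : (p : ℝ) / q = θ' := by exact_mod_cast hr
    exact hi' ⟨(p : ℚ) / q, by push_cast; exact hr'⟩
  · exfalso
    have hr' : (0 : ℝ) = (p' : ℝ) / q' := by exact_mod_cast hr
    have : (0 : ℝ) < (p' : ℝ) / q' := by positivity
    linarith
  · rfl
  · exact absurd hr (by simp)
  · exfalso
    have hr' : (0 : ℝ) = θ' := by exact_mod_cast hr
    linarith
  · exact absurd hr.symm (EReal.coe_ne_top _)
  · exact absurd hr (by simp)
  · rfl
  · exact absurd hr.symm (EReal.coe_ne_top _)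
  · exfalso
    have hr' : θ = (p' : ℝ) / q' := by exact_mod_cast hr
    exact hi ⟨(p' : ℚ) / q', by push_cast; exact hr'.symm⟩
  · exfalso
    have hr' : θ = 0 := by exact_mod_cast hr
    linarith
  · exact absurd hr (EReal.coe_ne_top _)
  · have hr' : θ = θ' := by exact_mod_cast hr
    subst hr'
    obtain ⟨rfl, rfl, rfl⟩ := quad_unique ha ha' hg hg' hi hz hz'
    rfl

/-! ### Existence of the list -/

theorem finite_entries (n : ℕ) : {e : Row | mult n e ≠ 0}.Finite := by
  classical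
  have h1 : {e : Row | IsRat n e}.Finite := by
    apply Set.Finite.subset (((Finset.Icc 1 n) ×ˢ (Finset.Icc 1 n)).finite_toSet.image
      (fun x : ℕ × ℕ => (((0, (x.2 : ℤ), -(x.1 : ℤ)), (((x.1 : ℝ) / (x.2 : ℝ) : ℝ) : EReal)) : Row)))
    rintro e ⟨p, q, hp, hpn, hq, hqn, hpq, rfl⟩
    exact ⟨(p, q), by simp [hp, hpn, hq, hqn], rfl⟩
  have h2 : {e : Row | IsEnd e}.Finite := by
    apply Set.Finite.subset ((Set.finite_singleton (((0, 1, 0), 0) : Row)).union
      (Set.finite_singleton (((0, 0, 1), ⊤) : Row)))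
    rintro e (rfl | rfl)
    · exact Or.inl rfl
    · exact Or.inr rfl
  have h3 : {e : Row | IsQuad n e}.Finite := by
    have hT : {t : ℤ × ℤ × ℤ | 1 ≤ t.1 ∧ t.1 ≤ n ∧ |t.2.1| ≤ n ∧ |t.2.2| ≤ n}.Finite := by
      apply Set.Finite.subset (((Finset.Icc (-(n : ℤ)) n) ×ˢ
        ((Finset.Icc (-(n : ℤ)) n) ×ˢ (Finset.Icc (-(n : ℤ)) n))).finite_toSet)
      rintro ⟨a, b, c⟩ ⟨h1, h2, h3, h4⟩
      simp only [abs_le] at h3 h4
      simp only [Finset.coe_product, Finset.coe_Icc, Set.mem_prod, Set.mem_Icc]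
      refine ⟨⟨by omega, h2⟩, h3, h4⟩
    have hR : ∀ t ∈ {t : ℤ × ℤ × ℤ | 1 ≤ t.1 ∧ t.1 ≤ n ∧ |t.2.1| ≤ n ∧ |t.2.2| ≤ n},
        ((fun θ : ℝ => ((t, (θ : EReal)) : Row)) ''
          {θ : ℝ | (t.1 : ℝ) * θ ^ 2 + (t.2.1 : ℝ) * θ + (t.2.2 : ℝ) = 0}).Finite := by
      rintro ⟨a, b, c⟩ ⟨h1, -⟩
      apply Set.Finite.image
      have hP : (Polynomial.C (a : ℝ) * Polynomial.X ^ 2 + Polynomial.C (b : ℝ) * Polynomial.X +
          Polynomial.C (c : ℝ)) ≠ 0 := by
        intro h0
        have h2 := congrArg (fun P => Polynomial.coeff P 2) h0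
        simp only [Polynomial.coeff_add, Polynomial.coeff_C_mul, Polynomial.coeff_X_pow,
          Polynomial.coeff_X, Polynomial.coeff_C, Polynomial.coeff_zero] at h2
        have h4 : a = 0 := by
          norm_num at h2
          exact h2
        simp only at h1
        omega
      apply Set.Finite.subset (Polynomial.finite_setOfPred_isRoot hP)
      intro θ hθ
      show Polynomial.IsRoot _ θ
      simp only [Polynomial.IsRoot.def, Polynomial.eval_add, Polynomial.eval_mul,
        Polynomial.eval_C, Polynomial.eval_pow, Polynomial.eval_X]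
      exact hθ
    apply Set.Finite.subset (Set.Finite.biUnion hT hR)
    rintro e ⟨a, b, c, θ, ha, han, hb, hc, hg, h0, hi, hz, rfl⟩
    rw [Set.mem_iUnion₂]
    exact ⟨(a, b, c), ⟨ha, han, hb, hc⟩, ⟨θ, hz, rfl⟩⟩
  apply Set.Finite.subset (h1.union (h2.union h3))
  intro e he
  rcases ne_zero_of_mult he with h | h | h
  · exact Or.inl h
  · exact Or.inr (Or.inl h)
  · exact Or.inr (Or.inr h)

theorem exists_list (n : ℕ) : ∃ L : List Row, IsMahlerList n L := by
  classical
  set E := (finite_entries n).toFinset with hE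
  set M : Multiset Row := ∑ e ∈ E, mult n e • ({e} : Multiset Row) with hM
  have hcount : ∀ e, M.count e = mult n e := by
    intro e
    rw [hM, Multiset.count_sum']
    simp only [Multiset.count_nsmul, Multiset.count_singleton, mul_ite, mul_one, mul_zero]
    rw [Finset.sum_ite_eq]
    split_ifs with h
    · rfl
    · rw [hE, Set.Finite.mem_toFinset] at h
      by_contra h0
      exact h (fun h' => h0 h'.symm)
  refine ⟨M.toList.insertionSort (fun e e' => e.2 ≤ e'.2), ?_, ?_⟩
  · have : Std.Total (fun e e' : Row => e.2 ≤ e'.2) := ⟨fun e e' => le_total e.2 e'.2⟩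
    have : IsTrans Row (fun e e' : Row => e.2 ≤ e'.2) := ⟨fun a b c => le_trans⟩
    exact List.pairwise_insertionSort _ _
  · intro e
    have h := hcount e
    rw [← Multiset.coe_toList M, Multiset.coe_count] at h
    rw [← h]
    have h2 := (List.perm_insertionSort (fun e e' : Row => e.2 ≤ e'.2) M.toList).count_eq e
    convert h2

theorem unique_list {n : ℕ} {L L' : List Row} (h : IsMahlerList n L) (h' : IsMahlerList n L') :
    L = L' := by
  classical
  have hperm : L.Perm L' := by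
    rw [List.perm_iff_count]
    intro e
    have h1 := h.2 e
    have h2 := h'.2 e
    convert h1.trans h2.symm
  refine List.Perm.eq_of_pairwise ?_ h.1 h'.1 hperm
  intro a b ha hb hab hba
  apply entry_unique (n := n)
  · apply ne_zero_of_mult
    rw [← h.2 a]
    have := List.count_pos_iff.2 ha
    omega
  · apply ne_zero_of_mult
    rw [← h'.2 b]
    have := List.count_pos_iff.2 hb
    omega
  · exact le_antisymm hab hba

/-! ### The three rows -/

theorem sq33 : (Real.sqrt 33) ^ 2 = 33 := Real.sq_sqrt (by norm_num)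
theorem sq2 : (Real.sqrt 2) ^ 2 = 2 := Real.sq_sqrt (by norm_num)
theorem sq105 : (Real.sqrt 105) ^ 2 = 105 := Real.sq_sqrt (by norm_num)

noncomputable def t1 : ℝ := (3 - Real.sqrt 2) / 7
noncomputable def t2 : ℝ := (-3 + Real.sqrt 33) / 12
noncomputable def t3 : ℝ := (-7 + Real.sqrt 105) / 14

theorem bd2 : (1.4142 : ℝ) < Real.sqrt 2 ∧ Real.sqrt 2 < 1.4143 :=
  ⟨Real.lt_sqrt_of_sq_lt (by norm_num), (Real.sqrt_lt' (by norm_num)).2 (by norm_num)⟩
theorem bd33 : (5.744 : ℝ) < Real.sqrt 33 ∧ Real.sqrt 33 < 5.745 :=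
  ⟨Real.lt_sqrt_of_sq_lt (by norm_num), (Real.sqrt_lt' (by norm_num)).2 (by norm_num)⟩
theorem bd105 : (10.246 : ℝ) < Real.sqrt 105 ∧ Real.sqrt 105 < 10.247 :=
  ⟨Real.lt_sqrt_of_sq_lt (by norm_num), (Real.sqrt_lt' (by norm_num)).2 (by norm_num)⟩

theorem t1_gt : (453 / 2000 : ℝ) < t1 := by unfold t1; have := bd2.2; linarith
theorem t12 : t1 < t2 := by unfold t1 t2; have := bd2.1; have := bd33.1; linarith
theorem t23 : t2 < t3 := by unfold t2 t3; have := bd33.2; have := bd105.1; linarith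
theorem t3_lt : t3 < (464 / 2000 : ℝ) := by unfold t3; have := bd105.2; linarith

noncomputable def r1 : Row := ((7, -6, 1), (t1 : EReal))
noncomputable def r2 : Row := ((6, 3, -1), (t2 : EReal))
noncomputable def r3 : Row := ((7, 7, -2), (t3 : EReal))

theorem irr2 : Irrational (Real.sqrt 2) := Nat.Prime.irrational_sqrt Nat.prime_two

theorem irr_sqrt {m : ℕ} (hm : ¬ IsSquare m) : Irrational (Real.sqrt m) := by
  exact irrational_sqrt_natCast_iff.2 hm

theorem irr33 : Irrational (Real.sqrt 33) := by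
  have := irr_sqrt (m := 33) (by
    rintro ⟨k, hk⟩
    have : k ≤ 6 := by nlinarith
    interval_cases k <;> omega)
  simpa using this

theorem irr105 : Irrational (Real.sqrt 105) := by
  have := irr_sqrt (m := 105) (by
    rintro ⟨k, hk⟩
    have : k ≤ 11 := by nlinarith
    interval_cases k <;> omega)
  simpa using this

theorem q1 : IsQuad 7 r1 := by
  refine ⟨7, -6, 1, t1, by norm_num, by norm_num, by norm_num, by norm_num, by decide, ?_, ?_, ?_,
    rfl⟩
  · have := t1_gt; linarith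
  · rintro ⟨q, hq⟩
    apply irr2
    refine ⟨3 - 7 * q, ?_⟩
    push_cast
    rw [hq]
    unfold t1
    ring
  · unfold t1
    push_cast
    linear_combination (1 / 7 : ℝ) * sq2

theorem q2 : IsQuad 7 r2 := by
  refine ⟨6, 3, -1, t2, by norm_num, by norm_num, by norm_num, by norm_num, by decide, ?_, ?_, ?_,
    rfl⟩
  · have := t1_gt; have := t12; linarith
  · rintro ⟨q, hq⟩
    apply irr33
    refine ⟨3 + 12 * q, ?_⟩
    push_cast
    rw [hq]
    unfold t2
    ring
  · unfold t2
    push_cast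
    linear_combination (6 / 144 : ℝ) * sq33

theorem q3 : IsQuad 7 r3 := by
  refine ⟨7, 7, -2, t3, by norm_num, by norm_num, by norm_num, by norm_num, by decide, ?_, ?_, ?_,
    rfl⟩
  · have := t1_gt; have := t12; have := t23; linarith
  · rintro ⟨q, hq⟩
    apply irr105
    refine ⟨7 + 14 * q, ?_⟩
    push_cast
    rw [hq]
    unfold t3
    ring
  · unfold t3
    push_cast
    linear_combination (7 / 196 : ℝ) * sq105

/-- value of `a x² + b x + c` at `l / 2000`, times `2000²` -/
def ev (a b c l : ℤ) : ℤ := a * l ^ 2 + b * l * 2000 + c * 2000 ^ 2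

def Chk (a b c : ℤ) : Prop :=
  (ev a b c 453 < 0 ∧ ev a b c 464 < 0) ∨
  (0 < ev a b c 453 ∧ 0 < ev a b c 464 ∧
    (0 ≤ 2 * a * 453 + b * 2000 ∨ 2 * a * 464 + b * 2000 ≤ 0)) ∨
  (a = 7 ∧ b = -6 ∧ c = 1) ∨ (a = 6 ∧ b = 3 ∧ c = -1) ∨ (a = 7 ∧ b = 7 ∧ c = -2)

instance (a b c : ℤ) : Decidable (Chk a b c) := by unfold Chk; infer_instance

theorem chk_all : ∀ a : Fin 7, ∀ b : Fin 15, ∀ c : Fin 15,
    Chk ((a : ℕ) + 1) ((b : ℕ) - 7) ((c : ℕ) - 7) := by
  decide +kernel

theorem chk_of {a b c : ℤ} (ha : 1 ≤ a) (ha' : a ≤ 7) (hb : |b| ≤ 7) (hc : |c| ≤ 7) :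
    Chk a b c := by
  rw [abs_le] at hb hc
  have h := chk_all ⟨(a - 1).toNat, by omega⟩ ⟨(b + 7).toNat, by omega⟩ ⟨(c + 7).toNat, by omega⟩
  have e1 : (((a - 1).toNat : ℕ) : ℤ) + 1 = a := by omega
  have e2 : (((b + 7).toNat : ℕ) : ℤ) - 7 = b := by omega
  have e3 : (((c + 7).toNat : ℕ) : ℤ) - 7 = c := by omega
  simp only [e1, e2, e3] at h
  exact h

theorem quad_between {a b c : ℤ} {θ : ℝ} (ha : 1 ≤ a) (ha' : a ≤ 7) (hb : |b| ≤ 7) (hc : |c| ≤ 7)
    (hz : (a : ℝ) * θ ^ 2 + (b : ℝ) * θ + (c : ℝ) = 0) (hl : 453 / 2000 ≤ θ) (hh : θ ≤ 464 / 2000) :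
    (a = 7 ∧ b = -6 ∧ c = 1) ∨ (a = 6 ∧ b = 3 ∧ c = -1) ∨ (a = 7 ∧ b = 7 ∧ c = -2) := by
  have h := chk_of ha ha' hb hc
  have haR : (1 : ℝ) ≤ a := by exact_mod_cast ha
  simp only [Chk, ev] at h
  rcases h with ⟨h1, h2⟩ | ⟨h1, h2, h3 | h3⟩ | h
  · exfalso
    have h1' : (a : ℝ) * 453 ^ 2 + b * 453 * 2000 + c * 2000 ^ 2 < 0 := by exact_mod_cast h1
    have h2' : (a : ℝ) * 464 ^ 2 + b * 464 * 2000 + c * 2000 ^ 2 < 0 := by exact_mod_cast h2
    have h4 : 0 ≤ (a : ℝ) * ((θ - 453 / 2000) * (464 / 2000 - θ)) :=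
      mul_nonneg (by linarith) (mul_nonneg (by linarith) (by linarith))
    have h5 : 0 ≤ (464 / 2000 - θ) * -((a : ℝ) * 453 ^ 2 + b * 453 * 2000 + c * 2000 ^ 2) :=
      mul_nonneg (by linarith) (by linarith)
    have h6 : 0 ≤ (θ - 453 / 2000) * -((a : ℝ) * 464 ^ 2 + b * 464 * 2000 + c * 2000 ^ 2) :=
      mul_nonneg (by linarith) (by linarith)
    nlinarith
  · exfalso
    have h1' : 0 < (a : ℝ) * 453 ^ 2 + b * 453 * 2000 + c * 2000 ^ 2 := by exact_mod_cast h1
    have h3' : 0 ≤ 2 * (a : ℝ) * 453 + b * 2000 := by exact_mod_cast h3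
    have h4 : 0 ≤ (a : ℝ) * (θ - 453 / 2000) ^ 2 := mul_nonneg (by linarith) (sq_nonneg _)
    have h5 : 0 ≤ (θ - 453 / 2000) * (2 * (a : ℝ) * 453 + b * 2000) :=
      mul_nonneg (by linarith) h3'
    nlinarith
  · exfalso
    have h2' : 0 < (a : ℝ) * 464 ^ 2 + b * 464 * 2000 + c * 2000 ^ 2 := by exact_mod_cast h2
    have h3' : 2 * (a : ℝ) * 464 + b * 2000 ≤ 0 := by exact_mod_cast h3
    have h4 : 0 ≤ (a : ℝ) * (θ - 464 / 2000) ^ 2 := mul_nonneg (by linarith) (sq_nonneg _)
    have h5 : 0 ≤ (464 / 2000 - θ) * -(2 * (a : ℝ) * 464 + b * 2000) :=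
      mul_nonneg (by linarith) (by linarith)
    nlinarith
  · exact h

theorem between {e : Row} (h : IsRat 7 e ∨ IsEnd e ∨ IsQuad 7 e) (hl : (t1 : EReal) ≤ e.2)
    (hh : e.2 ≤ (t3 : EReal)) : e = r1 ∨ e = r2 ∨ e = r3 := by
  have b1 := t1_gt
  have b2 := t3_lt
  have b12 := t12
  have b23 := t23
  rcases h with ⟨p, q, hp, hpn, hq, hqn, hpq, rfl⟩ | (rfl | rfl) |
    ⟨a, b, c, θ, ha, han, hb, hc, hg, h0, hi, hz, rfl⟩ <;> simp only [] at hl hh
  · exfalso
    have hl' : t1 ≤ (p : ℝ) / q := by exact_mod_cast hl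
    have hh' : (p : ℝ) / q ≤ t3 := by exact_mod_cast hh
    have hq0 : (0 : ℝ) < q := by exact_mod_cast hq
    have e1 : 453 / 2000 < (p : ℝ) / q := by linarith
    have e2 : (p : ℝ) / q < 464 / 2000 := by linarith
    rw [lt_div_iff₀ hq0] at e1
    rw [div_lt_iff₀ hq0] at e2
    have e1' : (453 * q : ℝ) < 2000 * p := by linarith
    have e2' : (2000 * p : ℝ) < 464 * q := by linarith
    have e1n : 453 * q < 2000 * p := by exact_mod_cast e1'
    have e2n : 2000 * p < 464 * q := by exact_mod_cast e2'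
    interval_cases q <;> omega
  · exfalso
    have hl' : t1 ≤ 0 := by exact_mod_cast hl
    linarith
  · exfalso
    exact absurd (top_le_iff.1 hh) (EReal.coe_ne_top _)
  · have hl' : t1 ≤ θ := by exact_mod_cast hl
    have hh' : θ ≤ t3 := by exact_mod_cast hh
    rcases quad_between ha (by exact_mod_cast han) (by exact_mod_cast hb) (by exact_mod_cast hc)
      hz (by linarith) (by linarith) with ⟨rfl, rfl, rfl⟩ | ⟨rfl, rfl, rfl⟩ | ⟨rfl, rfl, rfl⟩
    · left
      have hf : (θ - t1) * (7 * θ - (3 + Real.sqrt 2)) = 0 := by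
        unfold t1
        push_cast at hz
        linear_combination hz - (1 / 7 : ℝ) * sq2
      have hne : 7 * θ - (3 + Real.sqrt 2) ≠ 0 := by
        have := bd2.1
        intro h
        linarith
      have : θ = t1 := by
        have := (mul_eq_zero.1 hf).resolve_right hne
        linarith
      rw [this]
      rfl
    · right; left
      have hf : (θ - t2) * (12 * θ + (3 + Real.sqrt 33)) = 0 := by
        unfold t2
        push_cast at hz
        linear_combination 2 * hz - (1 / 12 : ℝ) * sq33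
      have hne : 12 * θ + (3 + Real.sqrt 33) ≠ 0 := by
        have := bd33.1
        intro h
        linarith
      have : θ = t2 := by
        have := (mul_eq_zero.1 hf).resolve_right hne
        linarith
      rw [this]
      rfl
    · right; right
      have hf : (θ - t3) * (14 * θ + (7 + Real.sqrt 105)) = 0 := by
        unfold t3
        push_cast at hz
        linear_combination 2 * hz - (1 / 14 : ℝ) * sq105
      have hne : 14 * θ + (7 + Real.sqrt 105) ≠ 0 := by
        have := bd105.1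
        intro h
        linarith
      have : θ = t3 := by
        have := (mul_eq_zero.1 hf).resolve_right hne
        linarith
      rw [this]
      rfl

theorem mult_quad {n : ℕ} {e : Row} (h : IsQuad n e) : mult n e = 1 := by
  unfold mult
  rw [if_neg, if_pos (Or.inr h)]
  rintro ⟨p, q, hp, hpn, hq, hqn, hpq, rfl⟩
  obtain ⟨a, b, c, θ, ha, -, -, -, -, -, -, -, he⟩ := h
  have := congrArg (fun e : Row => e.1.1) he
  simp only at this
  omega

/-- The determinants of three consecutive rows need not be `0` or `±1`: for every order there is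
exactly one list, and the list of order `7` has three consecutive rows of determinant `-2`. -/
theorem result : (∀ n : ℕ, ∃! L : List Row, IsMahlerList n L) ∧
    ∃ (A B : List Row) (r s t : Row), IsMahlerList 7 (A ++ r :: s :: t :: B) ∧
      det3 r s t = -2 := by
  classical
  refine ⟨fun n => ?_, ?_⟩
  · obtain ⟨L, hL⟩ := exists_list n
    exact ⟨L, hL, fun L' hL' => unique_list hL' hL⟩
  · obtain ⟨L, hL⟩ := exists_list 7
    have hmem : ∀ e, IsQuad 7 e → e ∈ L := by
      intro e he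
      have h1 := hL.2 e
      rw [mult_quad he] at h1
      exact List.count_pos_iff.1 (by rw [h1]; norm_num)
    have hcnt : ∀ e, IsQuad 7 e → L.count e = 1 := by
      intro e he
      rw [← mult_quad he, ← hL.2 e]
    have hent : ∀ e ∈ L, IsRat 7 e ∨ IsEnd e ∨ IsQuad 7 e := by
      intro e he
      apply ne_zero_of_mult
      rw [← hL.2 e]
      have := List.count_pos_iff.2 he
      omega
    have h12 : r1 ≠ r2 := fun h => by
      have := congrArg (fun e : Row => e.1.1) h
      simp [r1, r2] at this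
    have h13 : r1 ≠ r3 := fun h => by
      have := congrArg (fun e : Row => e.1.2.1) h
      simp [r1, r3] at this
    have h23 : r2 ≠ r3 := fun h => by
      have := congrArg (fun e : Row => e.1.1) h
      simp [r2, r3] at this
    have k12 : (t1 : EReal) < t2 := by exact_mod_cast t12
    have k23 : (t2 : EReal) < t3 := by exact_mod_cast t23
    obtain ⟨A, B0, hAB⟩ := List.append_of_mem (hmem r1 q1)
    have hs := hL.1
    rw [hAB, List.pairwise_append] at hs
    obtain ⟨hsA, hsB, hsAB⟩ := hs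
    rw [List.pairwise_cons] at hsB
    have hr1B : r1 ∉ B0 := by
      intro h
      have := hcnt r1 q1
      rw [hAB, List.count_append, List.count_cons_self] at this
      have h2 := List.count_pos_iff.2 h
      omega
    have hr2B : r2 ∈ B0 := by
      have := hmem r2 q2
      rw [hAB, List.mem_append, List.mem_cons] at this
      rcases this with h | h | h
      · exact absurd (hsAB r2 h r1 List.mem_cons_self) (not_le.2 k12)
      · exact absurd h.symm h12
      · exact h
    have hr3B : r3 ∈ B0 := by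
      have := hmem r3 q3
      rw [hAB, List.mem_append, List.mem_cons] at this
      rcases this with h | h | h
      · exact absurd (hsAB r3 h r1 List.mem_cons_self) (not_le.2 (k12.trans k23))
      · exact absurd h.symm h13
      · exact h
    obtain ⟨x, B1, rfl⟩ := List.exists_cons_of_ne_nil (List.ne_nil_of_mem hr2B)
    have hxL : x ∈ L := by rw [hAB]; simp
    have hx1 : x ≠ r1 := fun h => hr1B (h ▸ List.mem_cons_self)
    obtain ⟨hsx, hsB1⟩ := List.pairwise_cons.1 hsB.2
    have hxle : x.2 ≤ (t2 : EReal) := by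
      rcases List.mem_cons.1 hr2B with h | h
      · rw [← h]; exact le_refl _
      · exact hsx r2 h
    have hx : x = r2 := by
      have hge : (t1 : EReal) ≤ x.2 := hsB.1 x List.mem_cons_self
      rcases between (hent x hxL) hge (hxle.trans k23.le) with h | h | h
      · exact absurd h hx1
      · exact h
      · rw [h] at hxle
        exact absurd hxle (not_le.2 k23)
    subst hx
    have hr2B1 : r2 ∉ B1 := by
      intro h
      have := hcnt r2 q2
      rw [hAB, List.count_append, List.count_cons, List.count_cons_self] at this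
      have h2 := List.count_pos_iff.2 h
      omega
    have hr3B1 : r3 ∈ B1 := by
      rcases List.mem_cons.1 hr3B with h | h
      · exact absurd h.symm h23
      · exact h
    obtain ⟨y, B2, rfl⟩ := List.exists_cons_of_ne_nil (List.ne_nil_of_mem hr3B1)
    have hyL : y ∈ L := by rw [hAB]; simp
    have hy1 : y ≠ r1 := fun h => hr1B (by rw [← h]; simp)
    have hy2 : y ≠ r2 := fun h => hr2B1 (h ▸ List.mem_cons_self)
    obtain ⟨hsy, hsB2⟩ := List.pairwise_cons.1 hsB1
    have hyle : y.2 ≤ (t3 : EReal) := by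
      rcases List.mem_cons.1 hr3B1 with h | h
      · rw [← h]; exact le_refl _
      · exact hsy r3 h
    have hy : y = r3 := by
      have hge : (t2 : EReal) ≤ y.2 := hsx y List.mem_cons_self
      rcases between (hent y hyL) (k12.le.trans hge) hyle with h | h | h
      · exact absurd h hy1
      · exact absurd h hy2
      · exact h
    subst hy
    refine ⟨A, B2, r1, r2, r3, ?_, ?_⟩
    · rw [← hAB]
      exact hL
    · simp [det3, r1, r2, r3, Matrix.det_fin_three]

end Pool.Agent.Results.MP_ca606e_nt.DeterminantTwo
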